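import Mathlib
import Pool.Agent.N991.MK.CGDefs
import Pool.Agent.N109.T3.Defs
import Pool.Agent.N991.MK.CFin

/-!
# Irreversibility of the renormalisation group of hierarchical gauge theory
-/

open MeasureTheory Matrix Filter
open Pool.Agent.N989.MK Pool.Agent.N109.T3 Pool.Agent.N991.MK
open scoped Topology

namespace Pool.Agent.N991.Draft.HierarchicalIrreversibility

/-- The `a`-theorem for the Migdal-Kadanoff renormalisation group, which is exact on the
hierarchical lattices. For the recursions in all dimensions, and all second countable compact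
groups, the functional `aMK` (the logarithm of the inverse partition function of a sphere made of
`s + 1` plaquettes, with a local normalisation) does not increase, and it is constant at the fixed
points only. It is nonnegative for `p ≤ s`, that is in the dimensions `D ≤ 4` for gauge theories and
`D ≤ 2` for spin models. In four dimensional hierarchical gauge theory with a compact connected simple Lie group `G` it decreases
strictly to `0` along the renormalisation group trajectory of every lattice theory, and along those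
of the non-trivial continuum limits `F t` it decreases strictly from the value
`n (4 log 2 - (3 / 2) log 5)` of `n = dim G` free gluons to `0`, and the difference to the first
value is `2 n / (5 m)` up to `o(1 / m)` at the scale `2 ^ (-m)`. -/
theorem result {N n : ℕ} {G : Subgroup (unitaryGroup (Fin N) ℂ)} (hG : SimpleGroup G)
    [MeasurableSpace G] [BorelSpace G] (μ : Measure G) [IsProbabilityMeasure μ]
    [μ.IsHaarMeasure] {X : Fin n → Matrix (Fin N) (Fin N) ℂ} (hX : LieBasis G X) :
    -- all compact groups, and all dimensions: irreversibility, without cycles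
    (∀ (K : Type) [Group K] [TopologicalSpace K] [IsTopologicalGroup K] [CompactSpace K]
      [SecondCountableTopology K] [MeasurableSpace K] [BorelSpace K] (ν : Measure K)
      [IsProbabilityMeasure ν] [ν.IsHaarMeasure] (s p : ℕ), 1 ≤ s → 1 ≤ p →
      ∀ f : K → ℝ, Wgt f →
        Wgt (MKr ν s p f) ∧ aMK ν s p (MKr ν s p f) ≤ aMK ν s p f ∧
        (aMK ν s p (MKr ν s p f) = aMK ν s p f ↔
          ∃ c : ℝ, 0 < c ∧ ∀ x, MKr ν s p f x = c * f x) ∧
        ∀ m : ℕ, 1 ≤ m → (∃ c : ℝ, 0 < c ∧ ∀ x, (MKr ν s p)^[m] f x = c * f x) →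
          ∃ c : ℝ, 0 < c ∧ ∀ x, MKr ν s p f x = c * f x) ∧
    -- positivity
    (∀ (K : Type) [Group K] [TopologicalSpace K] [IsTopologicalGroup K] [CompactSpace K]
      [SecondCountableTopology K] [MeasurableSpace K] [BorelSpace K] (ν : Measure K)
      [IsProbabilityMeasure ν] [ν.IsHaarMeasure] (s p : ℕ), 1 ≤ p → p ≤ s →
      ∀ f : K → ℝ, Continuous f → (∀ x, 0 < f x) →
        0 ≤ aMK ν s p f ∧ (2 ≤ s → (aMK ν s p f = 0 ↔ ∃ c : ℝ, ∀ x, f x = c))) ∧
    -- the four dimensional lattice theories
    (∀ (S : G → ℝ) (β : ℝ), BareAction G S → 0 < β →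
      -- the partition functions are the iterates of the recursion
      (∀ (k : ℕ) (V : BE k → G), Zb μ (bw S β) k V = (MKr μ 4 4)^[k] (bw S β) (lp V)) ∧
      StrictAnti (fun k : ℕ => aMK μ 4 4 ((MKr μ 4 4)^[k + 1] (bw S β))) ∧
      Tendsto (fun k : ℕ => aMK μ 4 4 ((MKr μ 4 4)^[k] (bw S β))) atTop (𝓝 0)) ∧
    -- the continuum limits
    ∃ (cA : ℝ) (F : ℝ → ℤ → G → ℝ), 0 < cA ∧
      -- `cA` is the Casimir constant of the adjoint representation
      (∀ c, ∑ a, (trace ((X c * X a - X a * X c)ᴴ * (X c * X a - X a * X c))).re = cA) ∧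
      -- the theories `F t` are the non-trivial continuum limits
      (∀ t, ∃ (β : ℕ → ℝ) (l : ℕ → ℕ), Appr μ (F t) (fun g => (trace (mx g)).re) β l) ∧
      (∀ (S : G → ℝ) (β : ℕ → ℝ) (l : ℕ → ℕ) (F' : ℤ → G → ℝ), Appr μ F' S β l →
        F' = (fun _ _ => 1) ∨ ∃ t, F' = F t) ∧
      -- a change of the unit of length is a change of the parameter
      (∀ t k, F t (k + 1) = F (t - cA / 8) k) ∧
      (∀ t k, Wgt (F t k) ∧ ∃ c : ℝ, 0 < c ∧ ∀ x, MKr μ 4 4 (F t k) x = c * F t (k + 1) x) ∧
      -- the `a`-function along the trajectories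
      (∀ t, StrictAnti (fun k => aMK μ 4 4 (F t k)) ∧
        Tendsto (fun k => aMK μ 4 4 (F t k)) atBot
          (𝓝 (n * (4 * Real.log 2 - 3 / 2 * Real.log 5))) ∧
        -- asymptotic freedom
        Tendsto (fun m : ℕ => (m : ℝ) * (n * (4 * Real.log 2 - 3 / 2 * Real.log 5) -
          aMK μ 4 4 (F t (-m)))) atTop (𝓝 (2 * n / 5)) ∧
        Tendsto (fun k => aMK μ 4 4 (F t k)) atTop (𝓝 0)) ∧
      -- the `a`-function as a function of the parameter
      Continuous (fun t => aMK μ 4 4 (F t 0)) ∧
      Tendsto (fun t => aMK μ 4 4 (F t 0)) atTop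
        (𝓝 (n * (4 * Real.log 2 - 3 / 2 * Real.log 5))) ∧
      Tendsto (fun t => aMK μ 4 4 (F t 0)) atBot (𝓝 0) :=
  ⟨fun _ _ _ _ _ _ _ _ ν _ _ _ _ hs hp _ hf => mk_general ν hs hp hf,
    fun _ _ _ _ _ _ _ _ ν _ _ _ _ hp hps _ hf hf0 => mk_young ν hp hps hf hf0, irr_main hG hX⟩

end Pool.Agent.N991.Draft.HierarchicalIrreversibility
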